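import Pool.Agent.GEN.StmtsU

/-!
# Squad GEN, row GNC (helper45): Zariski generic coefficients
-/

set_option autoImplicit false

namespace Pool.Agent.GEN.H45

open MvPolynomial Finset Pool.Agent.GEN Pool.Agent.Helper6_Mono Pool.Agent.Helper30_Simp
  Pool.Agent.Helper30_Simp2

/-- the data of `Roots` with base `B` and zero set `Z` of the weights -/
def Dat {σ : Type} [Fintype σ] (M B : Finset (σ →₀ ℕ)) (Z : Finset σ) (κ : σ → ℕ) (N : ℕ) :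
    Prop :=
  (0 < N ∧ (∀ α ∈ M, N ≤ dot κ α) ∧ B ⊆ M ∧ B.Nonempty ∧ (∀ α ∈ B, dot κ α = N) ∧
    (∀ t : B → ℤ, (∀ j, ∑ α, t α * (((α : σ →₀ ℕ) j : ℕ) : ℤ) = 0) → t = 0) ∧
    (∀ v : σ → ℚ, (∀ i, κ i = 0 → v i = 0) → (∀ α ∈ B, ∑ i, v i * (α i : ℚ) = 0) →
      ∑ i, v i = 0) ∧
    (∀ A ∈ B, ∀ j, κ j ≠ 0 → A j = 1 → (∀ β ∈ B, β ≠ A → β j = 0) →
      ∃ l, l ≠ j ∧ κ l ≠ 0 ∧ A l = 1 ∧ ∀ β ∈ B, β ≠ A → β l = 0)) ∧
  ∀ i, i ∈ Z ↔ κ i = 0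

/-- the slope depends only on the base and on the zero set of the weights -/
theorem slope_eq {σ : Type} [Fintype σ] {M B : Finset (σ →₀ ℕ)} {Z : Finset σ}
    {κ κ' : σ → ℕ} {N N' : ℕ} (h : Dat M B Z κ N) (h' : Dat M B Z κ' N') :
    ((∑ i, κ i : ℕ) : ℂ) / (N : ℕ) = ((∑ i, κ' i : ℕ) : ℂ) / (N' : ℕ) := by
  obtain ⟨⟨hN, -, -, -, hd, -, hfl, -⟩, hZ⟩ := h
  obtain ⟨⟨hN', -, -, -, hd', -, -, -⟩, hZ'⟩ := h'
  have hNQ : (N : ℚ) ≠ 0 := by exact_mod_cast hN.ne'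
  have hNQ' : (N' : ℚ) ≠ 0 := by exact_mod_cast hN'.ne'
  have h1 := hfl (fun i => (κ i : ℚ) / N - (κ' i : ℚ) / N') (fun i hi => by
      have h2 : κ' i = 0 := (hZ' i).1 ((hZ i).2 hi)
      simp [hi, h2]) (fun α hα => by
      have e1 : ∑ i, (κ i : ℚ) * (α i : ℚ) = N := by
        have h2 := hd α hα
        unfold dot at h2
        exact_mod_cast h2
      have e2 : ∑ i, (κ' i : ℚ) * (α i : ℚ) = N' := by
        have h2 := hd' α hα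
        unfold dot at h2
        exact_mod_cast h2
      have e3 : ∑ i, ((κ i : ℚ) / N - (κ' i : ℚ) / N') * (α i : ℚ) =
          (∑ i, (κ i : ℚ) * (α i : ℚ)) / N - (∑ i, (κ' i : ℚ) * (α i : ℚ)) / N' := by
        rw [Finset.sum_div, Finset.sum_div, ← Finset.sum_sub_distrib]
        exact Finset.sum_congr rfl fun i _ => by ring
      rw [e3, e1, e2, div_self hNQ, div_self hNQ', sub_self])
  rw [Finset.sum_sub_distrib, ← Finset.sum_div, ← Finset.sum_div, sub_eq_zero] at h1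
  have h2 : (((∑ i, κ i : ℕ) : ℚ) / (N : ℕ)) = ((∑ i, κ' i : ℕ) : ℚ) / (N' : ℕ) := by
    push_cast
    exact h1
  have h3 := congrArg (fun x : ℚ => (x : ℂ)) h2
  simpa using h3

/-- Row GNC. -/
theorem gnc (hR : RtoStmt) (hN : NpoStmt) : GncStmt := by
  classical
  intro σ _ M
  obtain ⟨H0, hH0, hH0'⟩ := hN σ M
  have hex : ∀ (B : Finset (σ →₀ ℕ)) (Z : Finset σ), ∃ H : MvPolynomial M ℚ, H ≠ 0 ∧
      ∀ F : MvPolynomial σ ℂ, F.support = M →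
        aeval (fun α : M => F.coeff (α : σ →₀ ℕ)) H ≠ 0 → ∀ (κ : σ → ℕ) (N : ℕ),
          Dat M B Z κ N → (bfun F).eval (-(((∑ i, κ i : ℕ) : ℂ) / (N : ℕ))) = 0 := by
    intro B Z
    by_cases h : ∃ (κ : σ → ℕ) (N : ℕ), Dat M B Z κ N
    · obtain ⟨κ, N, hD⟩ := h
      obtain ⟨h1, h2, h3, h4, h5, h6, h7, h8⟩ := hD.1
      obtain ⟨H, hH, hH'⟩ := hR σ M κ N B h1 h2 h3 h4 h5 h6 h7 h8
      refine ⟨H, hH, fun F hF hHF κ' N' hD' => ?_⟩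
      rw [← slope_eq hD hD']
      exact hH' F hF hHF
    · refine ⟨1, one_ne_zero, fun F _ _ κ N hD => absurd ⟨κ, N, hD⟩ h⟩
  choose H hH hH' using hex
  refine ⟨H0 * ∏ B ∈ M.powerset, ∏ Z : Finset σ, H B Z, mul_ne_zero hH0
    (Finset.prod_ne_zero_iff.2 fun B _ => Finset.prod_ne_zero_iff.2 fun Z _ => hH B Z), ?_⟩
  intro F hF hne
  rw [map_mul, map_prod] at hne
  refine ⟨hH0' F hF (left_ne_zero_of_mul hne), ?_⟩
  have hne2 := Finset.prod_ne_zero_iff.1 (right_ne_zero_of_mul hne)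
  intro κ N B h1 h2 h3 h4 h5 h6 h7 h8
  rw [hF] at h2 h3
  have h9 := hne2 B (Finset.mem_powerset.2 h3)
  rw [map_prod] at h9
  have h10 := Finset.prod_ne_zero_iff.1 h9 (Finset.univ.filter fun i => κ i = 0)
    (Finset.mem_univ _)
  exact hH' B _ F hF h10 κ N ⟨⟨h1, h2, h3, h4, h5, h6, h7, h8⟩, fun i => by simp⟩

end Pool.Agent.GEN.H45
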